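import Mathlib
import Pool.Agent.Helper23.Bose.Final
import Pool.Agent.Helper67.Bose.Upper
import Pool.Agent.Helper92.Bose.LowerBound

/-!
# Bose gases with two- and three-body interactions in the Gross-Pitaevskii regime

The ground state energy per particle converges to the Gross-Pitaevskii energy whose quartic and
sextic couplings are the two-body and the three-body scattering energies.
-/

set_option autoImplicit false
open MeasureTheory Filter Topology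

namespace Pool.Agent.Results.MP_8a06e3_mp.TwoAndThreeBody

/-- the space `ℝ³` -/
abbrev E3 := EuclideanSpace ℝ (Fin 3)

/-- the unit vectors `e_1, e_2, e_3` of `ℝ³` -/
noncomputable def ek (k : Fin 3) : E3 := EuclideanSpace.single k (1 : ℝ)

/-- complex-valued smooth compactly supported functions -/
def TestFunction {X : Type} [NormedAddCommGroup X] [NormedSpace ℝ X] (φ : X → ℂ) : Prop :=
  ContDiff ℝ ((⊤ : ℕ∞) : WithTop ℕ∞) φ ∧ HasCompactSupport φ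

/-- `|∂_v φ(x)|²`, the squared modulus of the derivative of `φ` at `x` in the direction `v` -/
noncomputable def dsq {X : Type} [NormedAddCommGroup X] [NormedSpace ℝ X] (φ : X → ℂ)
    (x v : X) : ℝ := ‖fderiv ℝ φ x v‖ ^ 2

/-- the external potential: `V_ext ∈ L^∞_loc(ℝ³)` and `V_ext(x) ≥ C |x|^α` for almost every `x`,
for some `C, α > 0` -/
structure IsTrap (Vext : E3 → ℝ) : Prop where
  measurable : AEMeasurable Vext
  locallyBounded : ∀ R : ℝ, ∃ M : ℝ, ∀ᵐ x, ‖x‖ ≤ R → |Vext x| ≤ M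
  growth : ∃ C α : ℝ, 0 < C ∧ 0 < α ∧ ∀ᵐ x, C * ‖x‖ ^ α ≤ Vext x

/-- the pair potential: measurable, even, nonnegative, bounded, compactly supported -/
structure IsPairPotential (W : E3 → ℝ) : Prop where
  measurable : Measurable W
  even : ∀ x, W (-x) = W x
  nonneg : ∀ x, 0 ≤ W x
  bounded : ∃ M : ℝ, ∀ x, W x ≤ M
  support : HasCompactSupport W

/-- the three-body potential: measurable, nonnegative, bounded, compactly supported, with the
three-body symmetry -/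
structure IsTriplePotential (V : E3 × E3 → ℝ) : Prop where
  measurable : Measurable V
  nonneg : ∀ p, 0 ≤ V p
  bounded : ∃ M : ℝ, ∀ p, V p ≤ M
  support : HasCompactSupport V
  swap : ∀ x y, V (x, y) = V (y, x)
  symm : ∀ x y z, V (x - y, x - z) = V (y - x, y - z) ∧ V (x - y, x - z) = V (z - y, z - x)

/-- `b(W)`, the infimum of `∫ (2 |∇φ|² + W |1 - φ|²)` -/
noncomputable def b (W : E3 → ℝ) : ℝ :=
  sInf {B : ℝ | ∃ φ : E3 → ℂ, TestFunction φ ∧
    B = ∫ y, (2 * ∑ k, dsq φ y (ek k) + W y * ‖1 - φ y‖ ^ 2)}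

/-- `b_M(V)`, the infimum of `∫ (2 |M ∇φ|² + V |1 - φ|²)`, where
`2 |M ∇φ|² = |∇_1 φ|² + |∇_2 φ|² + |(∇_1 + ∇_2) φ|²` -/
noncomputable def bM (V : E3 × E3 → ℝ) : ℝ :=
  sInf {B : ℝ | ∃ φ : E3 × E3 → ℂ, TestFunction φ ∧
    B = ∫ p, (∑ k, (dsq φ p (ek k, 0) + dsq φ p (0, ek k) + dsq φ p (ek k, ek k))
      + V p * ‖1 - φ p‖ ^ 2)}

/-- `e(b₁, b₂)`, the Gross-Pitaevskii energy -/
noncomputable def e (Vext : E3 → ℝ) (b₁ b₂ : ℝ) : ℝ :=
  sInf {E : ℝ | ∃ u : E3 → ℂ, TestFunction u ∧ ∫ x, ‖u x‖ ^ 2 = 1 ∧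
    E = ∫ x, (∑ k, dsq u x (ek k) + Vext x * ‖u x‖ ^ 2 + b₁ / 2 * ‖u x‖ ^ 4
      + b₂ / 6 * ‖u x‖ ^ 6)}

/-- the interaction `∑_{i<j} N² W(N(x_i - x_j)) + ∑_{i<j<k} N V(N^{1/2}(x_i - x_j, x_i - x_k))` -/
noncomputable def interaction (W : E3 → ℝ) (V : E3 × E3 → ℝ) (N : ℕ) (x : Fin N → E3) : ℝ :=
  ∑ i : Fin N, ∑ j ∈ Finset.Ioi i, (N : ℝ) ^ 2 * W ((N : ℝ) • (x i - x j)) +
    ∑ i : Fin N, ∑ j ∈ Finset.Ioi i, ∑ k ∈ Finset.Ioi j,
      (N : ℝ) * V (Real.sqrt N • (x i - x j), Real.sqrt N • (x i - x k))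

/-- the quadratic form of the Hamiltonian `H_N` at `ψ` -/
noncomputable def energy (Vext W : E3 → ℝ) (V : E3 × E3 → ℝ) (N : ℕ) (ψ : (Fin N → E3) → ℂ) : ℝ :=
  ∫ x, (∑ i : Fin N, ∑ k, dsq ψ x (Pi.single i (ek k))
    + (∑ i : Fin N, Vext (x i) + interaction W V N x) * ‖ψ x‖ ^ 2)

/-- the ground state energy `E_N`: the infimum of the quadratic form of `H_N` over normalised
symmetric functions in its form core `C_c^∞` -/
noncomputable def EN (Vext W : E3 → ℝ) (V : E3 × E3 → ℝ) (N : ℕ) : ℝ :=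
  sInf {E : ℝ | ∃ ψ : (Fin N → E3) → ℂ, TestFunction ψ ∧
    (∀ σ : Equiv.Perm (Fin N), ∀ x, ψ (x ∘ σ) = ψ x) ∧ ∫ x, ‖ψ x‖ ^ 2 = 1 ∧
    E = energy Vext W V N ψ}

open Pool.Agent.Helper23 in
theorem hyp_of {Vext W : E3 → ℝ} {V : E3 × E3 → ℝ} (hm : Measurable Vext)
    (hb : ∀ K : Set E3, IsCompact K → ∃ M : ℝ, ∀ x ∈ K, |Vext x| ≤ M)
    (hg : ∃ C α : ℝ, 0 < C ∧ 0 < α ∧ ∀ x, C * ‖x‖ ^ α ≤ Vext x)
    (hW : IsPairPotential W) (hV : IsTriplePotential V) : Bose.Hyp Vext W V :=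
  ⟨hm, hb, hg, hW.measurable, hW.even, hW.nonneg, hW.bounded, hW.support, hV.measurable,
    hV.nonneg, hV.bounded, hV.support, hV.swap, hV.symm⟩

/-- a trap is almost everywhere equal to one with pointwise bounds -/
theorem exists_good {Vext : E3 → ℝ} (h : IsTrap Vext) : ∃ U : E3 → ℝ, Vext =ᵐ[volume] U ∧
    Measurable U ∧ (∀ K : Set E3, IsCompact K → ∃ M : ℝ, ∀ x ∈ K, |U x| ≤ M) ∧
    (∃ C α : ℝ, 0 < C ∧ 0 < α ∧ ∀ x, C * ‖x‖ ^ α ≤ U x) := by
  classical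
  obtain ⟨f, hf, hVf⟩ := h.measurable
  choose M hM using fun n : ℕ => h.locallyBounded (n : ℝ)
  obtain ⟨C, α, hC, hα, hg⟩ := h.growth
  let G : Set E3 := {x | (∀ n : ℕ, ‖x‖ ≤ n → |f x| ≤ M n) ∧ C * ‖x‖ ^ α ≤ f x}
  have hpow : Measurable fun x : E3 => C * ‖x‖ ^ α :=
    (measurable_norm.pow_const α).const_mul C
  have hG : MeasurableSet G := by
    have h1 : G = (⋂ n : ℕ, ({x : E3 | ‖x‖ ≤ (n : ℝ)}ᶜ ∪ {x | |f x| ≤ M n})) ∩
        {x | C * ‖x‖ ^ α ≤ f x} := by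
      ext x
      simp only [G, Set.mem_ofPred_eq, Set.mem_inter_iff, Set.mem_iInter, Set.mem_union,
        Set.mem_compl_iff]
      constructor
      · rintro ⟨h1, h2⟩
        exact ⟨fun n => or_iff_not_imp_left.2 fun h3 => h1 n (not_not.1 h3), h2⟩
      · rintro ⟨h1, h2⟩
        exact ⟨fun n h3 => (h1 n).resolve_left (not_not.2 h3), h2⟩
    rw [h1]
    refine (MeasurableSet.iInter fun n => ?_).inter (measurableSet_le hpow hf)
    exact (measurableSet_le measurable_norm measurable_const).compl.union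
      (measurableSet_le hf.abs measurable_const)
  have hGae : ∀ᵐ x, x ∈ G := by
    filter_upwards [hVf, ae_all_iff.2 hM, hg] with x h1 h2 h3
    exact ⟨fun n h4 => by rw [← h1]; exact h2 n h4, by rw [← h1]; exact h3⟩
  refine ⟨fun x => if x ∈ G then f x else C * ‖x‖ ^ α, ?_, Measurable.ite hG hf hpow, ?_,
    C, α, hC, hα, ?_⟩
  · filter_upwards [hVf, hGae] with x h1 h2
    rw [if_pos h2, h1]
  · intro K hK
    obtain ⟨R, hR⟩ := hK.isBounded.exists_norm_le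
    obtain ⟨n, hn⟩ := exists_nat_ge R
    refine ⟨max (M n) (C * (n : ℝ) ^ α), fun x hx => ?_⟩
    have hxn : ‖x‖ ≤ n := (hR x hx).trans hn
    by_cases hxG : x ∈ G
    · simp only [if_pos hxG]
      exact (hxG.1 n hxn).trans (le_max_left _ _)
    · simp only [if_neg hxG]
      rw [abs_of_nonneg (by positivity)]
      exact (mul_le_mul_of_nonneg_left (Real.rpow_le_rpow (norm_nonneg _) hxn hα.le) hC.le).trans
        (le_max_right _ _)
  · intro x
    by_cases hxG : x ∈ G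
    · simp only [if_pos hxG]
      exact hxG.2
    · simp only [if_neg hxG]
      exact le_rfl

open Pool.Agent.Helper23 in
theorem EN_eq {Vext U W : E3 → ℝ} {V : E3 × E3 → ℝ} (h : Vext =ᵐ[volume] U) (N : ℕ) :
    EN Vext W V N = Bose.EN U W V N := by
  have h1 : ∀ᵐ x : Fin N → E3, ∀ i, Vext (x i) = U (x i) := by
    rw [ae_all_iff]
    intro i
    exact (Measure.quasiMeasurePreserving_eval (fun _ : Fin N => (volume : Measure E3)) i).ae h
  have h2 : ∀ ψ : (Fin N → E3) → ℂ, energy Vext W V N ψ = Bose.QN U W V N ψ := by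
    intro ψ
    refine integral_congr_ae ?_
    filter_upwards [h1] with x hx
    simp only [interaction, dsq, Bose.gradi, Bose.pot2, Bose.pot3, hx]
    simp only [ek, Bose.ek]
    ring
  have h3 : {E : ℝ | ∃ ψ : (Fin N → E3) → ℂ, TestFunction ψ ∧
      (∀ σ : Equiv.Perm (Fin N), ∀ x, ψ (x ∘ σ) = ψ x) ∧ ∫ x, ‖ψ x‖ ^ 2 = 1 ∧
      E = energy Vext W V N ψ} =
      {E : ℝ | ∃ ψ : (Fin N → E3) → ℂ, Bose.AdmN N ψ ∧ E = Bose.QN U W V N ψ} := by
    ext E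
    constructor
    · rintro ⟨ψ, ⟨a1, a2⟩, a3, a4, rfl⟩
      exact ⟨ψ, ⟨a1, a2, a3, a4⟩, h2 ψ⟩
    · rintro ⟨ψ, ⟨a1, a2, a3, a4⟩, rfl⟩
      exact ⟨ψ, ⟨a1, a2⟩, a3, a4, (h2 ψ).symm⟩
  unfold EN Bose.EN
  rw [h3]

open Pool.Agent.Helper23 in
theorem e_eq {Vext U : E3 → ℝ} (h : Vext =ᵐ[volume] U) (b₁ b₂ : ℝ) :
    e Vext b₁ b₂ = Bose.eGP U b₁ b₂ := by
  have h2 : ∀ u : E3 → ℂ, (∫ x, (∑ k, dsq u x (ek k) + Vext x * ‖u x‖ ^ 2
      + b₁ / 2 * ‖u x‖ ^ 4 + b₂ / 6 * ‖u x‖ ^ 6)) = Bose.GPf U b₁ b₂ u := by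
    intro u
    refine integral_congr_ae ?_
    filter_upwards [h] with x hx
    simp only [Bose.grad2, hx]
    rfl
  have h3 : {E : ℝ | ∃ u : E3 → ℂ, TestFunction u ∧ ∫ x, ‖u x‖ ^ 2 = 1 ∧
      E = ∫ x, (∑ k, dsq u x (ek k) + Vext x * ‖u x‖ ^ 2 + b₁ / 2 * ‖u x‖ ^ 4
      + b₂ / 6 * ‖u x‖ ^ 6)} = {E : ℝ | ∃ u : E3 → ℂ, Bose.Adm1 u ∧ E = Bose.GPf U b₁ b₂ u} := by
    ext E
    constructor
    · rintro ⟨u, ⟨a1, a2⟩, a3, rfl⟩
      exact ⟨u, ⟨a1, a2, a3⟩, h2 u⟩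
    · rintro ⟨u, ⟨a1, a2, a3⟩, rfl⟩
      exact ⟨u, ⟨a1, a2⟩, a3, (h2 u).symm⟩
  unfold e Bose.eGP
  rw [h3]

open Pool.Agent.Helper23 in
theorem b_eq (W : E3 → ℝ) : b W = Bose.bW W := by
  unfold b Bose.bW TestFunction Bose.grad2 dsq
  simp only [and_assoc]
  rfl

open Pool.Agent.Helper23 in
theorem bM_eq (V : E3 × E3 → ℝ) : bM V = Bose.bM V := by
  unfold bM Bose.bM TestFunction Bose.form3 dsq
  simp only [and_assoc]
  rfl

/-- **Ground state energy of the Bose gas with two- and three-body interactions.** For every trap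
`V_ext`, every pair potential `W` and every three-body potential `V`, the ground state energy per
particle `E_N / N` tends to the Gross-Pitaevskii energy `e(b(W), b_M(V))`. -/
theorem result : ∀ (Vext W : E3 → ℝ) (V : E3 × E3 → ℝ),
    IsTrap Vext → IsPairPotential W → IsTriplePotential V →
    Tendsto (fun N : ℕ => EN Vext W V N / N) atTop (𝓝 (e Vext (b W) (bM V))) := by
  intro Vext W V hT hW hV
  obtain ⟨U, hU, h1, h2, h3⟩ := exists_good hT
  have H := hyp_of h1 h2 h3 hW hV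
  have key := Pool.Agent.Helper23.Bose.main_limit_of H
    (fun {ε} hε => Pool.Agent.Helper92.Bose.lower_bound_final H hε)
    (fun {ε} hε => Pool.Agent.Helper67.Bose.upper_bound H hε)
  rw [e_eq hU, b_eq, bM_eq]
  simp only [EN_eq hU]
  exact key

end Pool.Agent.Results.MP_8a06e3_mp.TwoAndThreeBody
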